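import Mathlib
import Pool.Agent.Helper475.Kuhn

set_option autoImplicit false

/-!
Mod 2 Stokes formula with all the faces on a triangulated cube, and a parity theorem for
local labellings: a labelling, up to a locally defined equivalence with at most `K` local
classes, of a `K`-dimensional grid (`K` even) cannot restrict to a Sperner labelling with the
`K + 1` labels `0, …, K` on the boundary.
-/

namespace Pool.Agent.Helper906Exp

open Pool.Agent.Helper475.Kuhn

/-- Insertion of the coordinate `c` at place `i`. -/
def ins (i c : ℕ) (v : ℕ → ℕ) : ℕ → ℕ :=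
  fun j => if j < i then v j else if j = i then c else v (j - 1)

theorem prism_map {U V W : Type*} (b t : V → W) (f : U → V) (l : List U)
    (φ : List W → ZMod 2) :
    prism b t (l.map f) φ = prism (fun u => b (f u)) (fun u => t (f u)) l φ := by
  induction l generalizing φ with
  | nil => simp [prism]
  | cons v l ih =>
    simp only [List.map_cons, prism, List.map_map]
    rw [ih]
    rfl

theorem prism_comp {V W X : Type*} (b t : V → W) (g : W → X) (l : List V)
    (φ : List X → ZMod 2) :
    prism (fun v => g (b v)) (fun v => g (t v)) l φ =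
      prism b t l (fun l' => φ (l'.map g)) := by
  induction l generalizing φ with
  | nil => simp [prism]
  | cons v l ih =>
    simp only [prism, List.map_cons, List.map_map]
    rw [ih]
    rfl

/-- The points of the unit cube with lowest corner `x`. -/
def InCube (k : ℕ) (x y : ℕ → ℕ) : Prop :=
  (∀ i, i < k → y i = x i ∨ y i = x i + 1) ∧ (∀ i, k ≤ i → y i = 0)

theorem grid_congr (m k : ℕ) (φ ψ : List (ℕ → ℕ) → ZMod 2)
    (h : ∀ l, (∃ x : ℕ → ℕ, (∀ i, i < k → x i < m) ∧ ∀ y ∈ l, InCube k x y) → φ l = ψ l) :
    grid m (fun _ => 0) k φ = grid m (fun _ => 0) k ψ := by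
  by_contra hne
  have h1 : grid m (fun _ => 0) k (fun l => φ l + ψ l) ≠ 0 := by
    rw [grid_add]
    intro h2
    apply hne
    have := two_eq (grid m (fun _ => 0) k ψ)
    linear_combination h2 - this
  obtain ⟨l, h2, x, hx, h3⟩ := grid_supp _ _ _ _ h1
  apply h2
  rw [h l ⟨x, hx, fun y hy => h3 y hy⟩]
  exact two_eq _

theorem del_congr {V : Type*} (l : List V) (φ ψ : List V → ZMod 2)
    (h : ∀ l', (∀ v ∈ l', v ∈ l) → φ l' = ψ l') : del l φ = del l ψ := by
  induction l generalizing φ ψ with
  | nil => rfl
  | cons v l ih =>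
    simp only [del]
    rw [h l (fun w hw => List.mem_cons_of_mem _ hw)]
    rw [ih (fun l' => φ (v :: l')) (fun l' => ψ (v :: l'))]
    intro l' hl'
    apply h
    intro w hw
    rcases List.mem_cons.1 hw with rfl | hw
    · exact List.mem_cons_self
    · exact List.mem_cons_of_mem _ (hl' w hw)

theorem ins_update (k i c t : ℕ) (hi : i ≤ k) (v : ℕ → ℕ) :
    Function.update (ins i c v) (k + 1) t = ins i c (Function.update v k t) := by
  funext j
  simp only [ins, Function.update_apply]
  by_cases h1 : j = k + 1
  · subst h1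
    rw [if_pos rfl, if_neg (by omega), if_neg (by omega), if_pos (by omega)]
  · rw [if_neg h1]
    by_cases h2 : j < i
    · rw [if_pos h2, if_pos h2, if_neg (by omega)]
    · rw [if_neg h2, if_neg h2]
      by_cases h3 : j = i
      · rw [if_pos h3, if_pos h3]
      · rw [if_neg h3, if_neg h3, if_neg (by omega)]

theorem ins_last (k c : ℕ) (v : ℕ → ℕ) (hv : ∀ i, k ≤ i → v i = 0) :
    Function.update v k c = ins k c v := by
  funext j
  simp only [ins, Function.update_apply]
  by_cases h2 : j < k
  · rw [if_neg (by omega), if_pos h2]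
  · by_cases h3 : j = k
    · rw [if_pos h3, if_neg h2, if_pos h3]
    · rw [if_neg h3, if_neg h2, if_neg h3, hv j (by omega), hv (j - 1) (by omega)]

/-- Stokes' formula on the triangulated grid, with all the faces. -/
theorem stokes (m k : ℕ) (φ : List (ℕ → ℕ) → ZMod 2) :
    grid m (fun _ => 0) (k + 1) (fun l => del l φ) =
      ∑ i ∈ Finset.range (k + 1), (grid m (fun _ => 0) k (fun l => φ (l.map (ins i m))) +
        grid m (fun _ => 0) k (fun l => φ (l.map (ins i 0)))) := by
  have hlast : ∀ c k (φ : List (ℕ → ℕ) → ZMod 2),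
      grid m (fun _ => 0) k (fun l => φ (l.map (fun v => Function.update v k c))) =
      grid m (fun _ => 0) k (fun l => φ (l.map (ins k c))) := by
    intro c k φ
    apply grid_congr
    rintro l ⟨x, -, hl⟩
    congr 1
    apply List.map_congr_left
    intro v hv
    exact ins_last k c v (hl v hv).2
  induction k generalizing φ with
  | zero =>
    rw [grid_del, hlast, hlast]
    simp [grid, del, prism]
  | succ k ih =>
    rw [grid_del, hlast, hlast, Finset.sum_range_succ _ (k + 1), add_assoc]
    congr 1
    have h1 : ∀ t, grid m (fun _ => 0) (k + 1) (fun l => del l (fun l' =>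
        prism (fun v => Function.update v (k + 1) t) (fun v => Function.update v (k + 1) (t + 1))
          l' φ)) =
        ∑ i ∈ Finset.range (k + 1),
          (grid m (fun _ => 0) k (fun l => prism (fun v => Function.update v k t)
            (fun v => Function.update v k (t + 1)) l (fun l' => φ (l'.map (ins i m)))) +
          grid m (fun _ => 0) k (fun l => prism (fun v => Function.update v k t)
            (fun v => Function.update v k (t + 1)) l (fun l' => φ (l'.map (ins i 0))))) := by
      intro t
      rw [ih]
      apply Finset.sum_congr rfl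
      intro i hi
      have hik : i ≤ k := by
        have := Finset.mem_range.1 hi
        omega
      have h2 : ∀ c, (fun l : List (ℕ → ℕ) => prism (fun v => Function.update v (k + 1) t)
          (fun v => Function.update v (k + 1) (t + 1)) (l.map (ins i c)) φ) =
          fun l => prism (fun v => Function.update v k t)
            (fun v => Function.update v k (t + 1)) l (fun l' => φ (l'.map (ins i c))) := by
        intro c
        funext l
        rw [prism_map, ← prism_comp]
        simp only [ins_update k i c _ hik]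
      rw [h2 m, h2 0]
    simp only [h1]
    rw [Finset.sum_comm]
    apply Finset.sum_congr rfl
    intro i _
    rw [Finset.sum_add_distrib]
    rfl

/-- Two grid points whose first `K` coordinates differ by at most one. -/
def Adj (K : ℕ) (v w : ℕ → ℕ) : Prop := ∀ i, i < K → v i ≤ w i + 1 ∧ w i ≤ v i + 1

/-- Boundary points of the grid `[0,m]^K`. -/
def Bd (K m : ℕ) (v : ℕ → ℕ) : Prop := ∃ i, i < K ∧ (v i = 0 ∨ v i = m)

theorem InCube.adj {K : ℕ} {x v w : ℕ → ℕ} (hv : InCube K x v) (hw : InCube K x w) :
    Adj K v w := by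
  intro i hi
  have h1 := hv.1 i hi
  have h2 := hw.1 i hi
  omega

theorem Adj.ins {k : ℕ} {v w : ℕ → ℕ} (i c : ℕ) (h : Adj k v w) (hi : i ≤ k) :
    Adj (k + 1) (ins i c v) (ins i c w) := by
  intro j hj
  simp only [Helper906Exp.ins]
  by_cases h2 : j < i
  · simp only [if_pos h2]
    exact h j (by omega)
  · simp only [if_neg h2]
    by_cases h3 : j = i
    · simp only [if_pos h3]
      omega
    · simp only [if_neg h3]
      exact h (j - 1) (by omega)

/-- Indicator of lists of `K` pairwise inequivalent points. -/
noncomputable def full (K : ℕ) (E : (ℕ → ℕ) → (ℕ → ℕ) → Prop) (l : List (ℕ → ℕ)) : ZMod 2 := by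
  classical
  exact if l.length = K ∧ l.Pairwise (fun v w => ¬ E v w) then 1 else 0

theorem full_eq (K : ℕ) (E : (ℕ → ℕ) → (ℕ → ℕ) → Prop) (l : List (ℕ → ℕ))
    (c : (ℕ → ℕ) → ℕ) (h1 : ∀ v ∈ l, c v < K)
    (h2 : ∀ v ∈ l, ∀ w ∈ l, (E v w ↔ c v = c w)) :
    full K E l = ind (Multiset.range K) (l.map c) := by
  classical
  have key : (l.length = K ∧ l.Pairwise (fun v w => ¬ E v w)) ↔
      ((l.map c : List ℕ) : Multiset ℕ) = Multiset.range K := by
    have h3 : l.Pairwise (fun v w => ¬ E v w) ↔ (l.map c).Nodup := by
      rw [List.Nodup, List.pairwise_map]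
      apply List.Pairwise.iff_of_mem
      intro v w hv hw
      rw [not_iff_not]
      exact h2 v hv w hw
    rw [h3]
    constructor
    · rintro ⟨h4, h5⟩
      apply Multiset.eq_of_le_of_card_le
      · rw [Multiset.le_iff_subset (by simpa using h5)]
        intro a ha
        rw [Multiset.mem_coe, List.mem_map] at ha
        obtain ⟨v, hv, rfl⟩ := ha
        rw [Multiset.mem_range]
        exact h1 v hv
      · simp [h4]
    · intro h4
      constructor
      · have := congrArg Multiset.card h4
        simpa using this
      · have : ((l.map c : List ℕ) : Multiset ℕ).Nodup := by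
          rw [h4]
          exact Multiset.nodup_range K
        simpa using this
  unfold full ind
  by_cases h : l.length = K ∧ l.Pairwise (fun v w => ¬ E v w)
  · rw [if_pos h, if_pos (key.1 h)]
  · rw [if_neg h, if_neg (fun h' => h (key.2 h'))]

/-- **Parity theorem.** -/
theorem comb (k m : ℕ) (hk : Even (k + 1)) (E : (ℕ → ℕ) → (ℕ → ℕ) → Prop)
    (lam : (ℕ → ℕ) → ℕ)
    (h1 : ∀ x : ℕ → ℕ, ∃ c : (ℕ → ℕ) → ℕ, ∀ v, InCube (k + 1) x v → c v < k + 1 ∧
      ∀ w, InCube (k + 1) x w → (E v w ↔ c v = c w))
    (h2 : ∀ v w, Adj (k + 1) v w → Bd (k + 1) m v → Bd (k + 1) m w → (E v w ↔ lam v = lam w))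
    (h3 : ∀ v, Bd (k + 1) m v → lam v ≤ k + 1)
    (h4 : ∀ v, Bd (k + 1) m v → ∀ i, i < k + 1 → v i = 0 → lam v ≠ i)
    (h5 : ∀ v, Bd (k + 1) m v → ∀ i, i < k + 1 → v i = m → lam v ≤ i) : False := by
  classical
  -- the coboundary of `full` vanishes
  have s1 : grid m (fun _ => 0) (k + 1) (fun l => del l (full (k + 1) E)) = 0 := by
    have : grid m (fun _ => 0) (k + 1) (fun l => del l (full (k + 1) E)) =
        grid m (fun _ => 0) (k + 1) (fun _ => 0) := by
      apply grid_congr
      rintro l ⟨x, -, hl⟩
      obtain ⟨c, hc⟩ := h1 x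
      rw [del_congr l (full (k + 1) E)
        (fun l' => ind (Multiset.range (k + 1)) (l'.map c))]
      · rw [← del_map c l (ind (Multiset.range (k + 1))), del_ind_range]
        · simp only [ind]
          rw [if_neg]
          intro e
          have : k + 1 ∈ ((l.map c : List ℕ) : Multiset ℕ) := by
            rw [e, Multiset.mem_range]; omega
          rw [Multiset.mem_coe, List.mem_map] at this
          obtain ⟨v, hv, hvj⟩ := this
          have := (hc v (hl v hv)).1
          omega
        · intro a ha
          obtain ⟨v, hv, rfl⟩ := List.mem_map.1 ha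
          exact (hc v (hl v hv)).1.le
      · intro l' hl'
        apply full_eq
        · intro v hv
          exact (hc v (hl v (hl' v hv))).1
        · intro v hv w hw
          exact (hc v (hl v (hl' v hv))).2 w (hl w (hl' w hw))
    rw [this]
    exact grid_zero _ _ _ _ (fun _ => rfl)
  rw [stokes] at s1
  -- boundary points
  have hbd : ∀ i c, i ≤ k → (c = 0 ∨ c = m) → ∀ v, Bd (k + 1) m (ins i c v) := by
    intro i c hi hc v
    refine ⟨i, by omega, ?_⟩
    simp only [ins, lt_self_iff_false, if_false, if_true]
    exact hc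
  have ins_self : ∀ i c v, ins i c v i = c := by
    intro i c v
    simp [ins]
  have ins_lt : ∀ i c v j, j < i → ins i c v j = v j := by
    intro i c v j hj
    simp [ins, hj]
  have ins_gt : ∀ i c v j, i ≤ j → ins i c v (j + 1) = v j := by
    intro i c v j hj
    simp only [ins]
    rw [if_neg (by omega), if_neg (by omega)]
    simp
  -- the faces `v i = 0`
  have f0 : ∀ i, i ≤ k → grid m (fun _ => 0) k (fun l => full (k + 1) E (l.map (ins i 0))) = 1 := by
    intro i hi
    set g : (ℕ → ℕ) → ℕ := fun v => if lam (ins i 0 v) < i then lam (ins i 0 v)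
      else lam (ins i 0 v) - 1 with hg
    have e1 : grid m (fun _ => 0) k (fun l => full (k + 1) E (l.map (ins i 0))) =
        grid m (fun _ => 0) k (fun l => ind (Multiset.range (k + 1)) (l.map g)) := by
      apply grid_congr
      rintro l ⟨x, -, hl⟩
      set c : (ℕ → ℕ) → ℕ := fun v => if lam v < i then lam v else lam v - 1 with hcdef
      have e2 : l.map g = (l.map (ins i 0)).map c := by
        rw [List.map_map]
        rfl
      rw [e2]
      apply full_eq
      · intro v hv
        obtain ⟨u, hu, rfl⟩ := List.mem_map.1 hv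
        have a1 := h3 _ (hbd i 0 hi (Or.inl rfl) u)
        simp only [hcdef]
        split_ifs <;> omega
      · intro v hv w hw
        obtain ⟨u, hu, rfl⟩ := List.mem_map.1 hv
        obtain ⟨u', hu', rfl⟩ := List.mem_map.1 hw
        rw [h2 _ _ (((hl u hu).adj (hl u' hu')).ins i 0 hi) (hbd i 0 hi (Or.inl rfl) u)
          (hbd i 0 hi (Or.inl rfl) u')]
        have a1 := h4 _ (hbd i 0 hi (Or.inl rfl) u) i (by omega) (ins_self _ _ _)
        have a2 := h4 _ (hbd i 0 hi (Or.inl rfl) u') i (by omega) (ins_self _ _ _)
        simp only [hcdef]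
        split_ifs <;> omega
    rw [e1]
    apply kuhn_parity
    · intro v
      have a1 := h3 _ (hbd i 0 hi (Or.inl rfl) v)
      have a2 := h4 _ (hbd i 0 hi (Or.inl rfl) v) i (by omega) (ins_self _ _ _)
      simp only [hg]
      split_ifs <;> omega
    · intro j hj v hv
      have a2 := h4 _ (hbd i 0 hi (Or.inl rfl) v) i (by omega) (ins_self _ _ _)
      simp only [hg]
      by_cases hji : j < i
      · have a1 := h4 _ (hbd i 0 hi (Or.inl rfl) v) j (by omega) (by rw [ins_lt _ _ _ _ hji, hv])
        split_ifs <;> omega
      · have a1 := h4 _ (hbd i 0 hi (Or.inl rfl) v) (j + 1) (by omega)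
          (by rw [ins_gt _ _ _ _ (by omega), hv])
        split_ifs <;> omega
    · intro j hj v hv
      have a2 := h4 _ (hbd i 0 hi (Or.inl rfl) v) i (by omega) (ins_self _ _ _)
      simp only [hg]
      by_cases hji : j < i
      · have a1 := h5 _ (hbd i 0 hi (Or.inl rfl) v) j (by omega) (by rw [ins_lt _ _ _ _ hji, hv])
        split_ifs <;> omega
      · have a1 := h5 _ (hbd i 0 hi (Or.inl rfl) v) (j + 1) (by omega)
          (by rw [ins_gt _ _ _ _ (by omega), hv])
        split_ifs <;> omega
  -- the faces `v i = m`, `i < k`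
  have fm : ∀ i, i ≤ k → grid m (fun _ => 0) k (fun l => full (k + 1) E (l.map (ins i m))) =
      grid m (fun _ => 0) k (fun l => ind (Multiset.range (k + 1))
        (l.map (fun v => lam (ins i m v)))) := by
    intro i hi
    apply grid_congr
    rintro l ⟨x, -, hl⟩
    have e2 : l.map (fun v => lam (ins i m v)) = (l.map (ins i m)).map lam := by
      rw [List.map_map]
      rfl
    rw [e2]
    apply full_eq
    · intro v hv
      obtain ⟨u, hu, rfl⟩ := List.mem_map.1 hv
      have a1 := h5 _ (hbd i m hi (Or.inr rfl) u) i (by omega) (ins_self _ _ _)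
      omega
    · intro v hv w hw
      obtain ⟨u, hu, rfl⟩ := List.mem_map.1 hv
      obtain ⟨u', hu', rfl⟩ := List.mem_map.1 hw
      exact h2 _ _ (((hl u hu).adj (hl u' hu')).ins i m hi) (hbd i m hi (Or.inr rfl) u)
          (hbd i m hi (Or.inr rfl) u')
  have fm0 : ∀ i, i < k →
      grid m (fun _ => 0) k (fun l => full (k + 1) E (l.map (ins i m))) = 0 := by
    intro i hi
    rw [fm i hi.le]
    apply grid_zero
    intro l
    simp only [ind]
    rw [if_neg]
    intro e
    have : k ∈ ((l.map (fun v => lam (ins i m v)) : List ℕ) : Multiset ℕ) := by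
      rw [e, Multiset.mem_range]; omega
    rw [Multiset.mem_coe, List.mem_map] at this
    obtain ⟨v, hv, hvj⟩ := this
    have a1 := h5 _ (hbd i m hi.le (Or.inr rfl) v) i (by omega) (ins_self _ _ _)
    omega
  have fm1 : grid m (fun _ => 0) k (fun l => full (k + 1) E (l.map (ins k m))) = 1 := by
    rw [fm k le_rfl]
    apply kuhn_parity
    · intro v
      exact h5 _ (hbd k m le_rfl (Or.inr rfl) v) k (by omega) (ins_self _ _ _)
    · intro j hj v hv
      exact h4 _ (hbd k m le_rfl (Or.inr rfl) v) j (by omega) (by rw [ins_lt _ _ _ _ hj, hv])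
    · intro j hj v hv
      exact h5 _ (hbd k m le_rfl (Or.inr rfl) v) j (by omega) (by rw [ins_lt _ _ _ _ hj, hv])
  rw [Finset.sum_add_distrib, Finset.sum_range_succ, fm1,
    Finset.sum_eq_zero (fun i hi => fm0 i (Finset.mem_range.1 hi)),
    Finset.sum_congr rfl (fun i hi => f0 i (by have := Finset.mem_range.1 hi; omega))] at s1
  rw [Finset.sum_const, Finset.card_range, nsmul_eq_mul, mul_one, zero_add] at s1
  have : ((k + 1 : ℕ) : ZMod 2) = 0 := by
    rw [ZMod.natCast_eq_zero_iff]
    exact even_iff_two_dvd.1 hk
  rw [this, add_zero] at s1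
  exact one_ne_zero s1

end Pool.Agent.Helper906Exp
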