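import Mathlib
import Pool.Agent.Helper906_Exp.Comb

set_option autoImplicit false

/-!
A grid version of: the space of nonempty subsets of the circle with at most `K` points is not a
retract of the space of nonempty subsets of the circle with at most `K + 1` points, `K` even.
-/

namespace Pool.Agent.Helper906Exp

/-- The numbers `(1 - t_0) ⋯ (1 - t_{j-1})`, where `t_i = v i / m`. -/
noncomputable def P (m : ℕ) (v : ℕ → ℕ) (j : ℕ) : ℝ :=
  ∏ i ∈ Finset.range j, (1 - (min (v i) m : ℕ) / (m : ℝ))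

theorem fac_nonneg (m a : ℕ) : 0 ≤ 1 - (min a m : ℕ) / (m : ℝ) := by
  have h : ((min a m : ℕ) : ℝ) ≤ m := by exact_mod_cast min_le_right a m
  have := div_le_one_of_le₀ h (Nat.cast_nonneg m)
  linarith

theorem fac_le_one (m a : ℕ) : 1 - (min a m : ℕ) / (m : ℝ) ≤ 1 := by
  have : 0 ≤ ((min a m : ℕ) : ℝ) / (m : ℝ) := by positivity
  linarith

theorem P_zero (m : ℕ) (v : ℕ → ℕ) : P m v 0 = 1 := by simp [P]

theorem P_succ (m : ℕ) (v : ℕ → ℕ) (j : ℕ) :
    P m v (j + 1) = P m v j * (1 - (min (v j) m : ℕ) / (m : ℝ)) := by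
  simp [P, Finset.prod_range_succ]

theorem P_nonneg (m : ℕ) (v : ℕ → ℕ) (j : ℕ) : 0 ≤ P m v j :=
  Finset.prod_nonneg (fun _ _ => fac_nonneg _ _)

theorem P_le_succ (m : ℕ) (v : ℕ → ℕ) (j : ℕ) : P m v (j + 1) ≤ P m v j := by
  rw [P_succ]
  exact mul_le_of_le_one_right (P_nonneg m v j) (fac_le_one _ _)

theorem P_anti (m : ℕ) (v : ℕ → ℕ) : Antitone (P m v) :=
  antitone_nat_of_succ_le (P_le_succ m v)

theorem P_le_one (m : ℕ) (v : ℕ → ℕ) (j : ℕ) : P m v j ≤ 1 := by
  rw [← P_zero m v]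
  exact P_anti m v (Nat.zero_le j)

theorem P_of_zero (m : ℕ) (v : ℕ → ℕ) (i : ℕ) (h : v i = 0) : P m v (i + 1) = P m v i := by
  rw [P_succ, h]
  simp

theorem P_of_top (m : ℕ) (hm : 1 ≤ m) (v : ℕ → ℕ) (i j : ℕ) (h : v i = m) (hij : i < j) :
    P m v j = 0 := by
  apply Finset.prod_eq_zero (Finset.mem_range.2 hij)
  rw [h, min_self]
  have : (m : ℝ) ≠ 0 := by positivity
  rw [div_self this, sub_self]

theorem P_adj (K m : ℕ) (hm : 1 ≤ m) (v w : ℕ → ℕ) (h : Adj K v w) (j : ℕ) (hj : j ≤ K) :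
    |P m v j - P m w j| ≤ j / (m : ℝ) := by
  have hm0 : (0 : ℝ) < m := by exact_mod_cast hm
  induction j with
  | zero => simp [P_zero]
  | succ j ih =>
    have h1 := ih (by omega)
    rw [P_succ, P_succ]
    set a := P m v j
    set a' := P m w j
    set f : ℝ := 1 - (min (v j) m : ℕ) / (m : ℝ) with hf
    set f' : ℝ := 1 - (min (w j) m : ℕ) / (m : ℝ) with hf'
    have h2 : |f - f'| ≤ 1 / m := by
      have e : f - f' = (((min (w j) m : ℕ) : ℝ) - ((min (v j) m : ℕ) : ℝ)) / m := by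
        rw [hf, hf']; ring
      rw [e, abs_div, abs_of_pos hm0]
      apply div_le_div_of_nonneg_right _ hm0.le
      obtain ⟨h3, h4⟩ := h j (by omega)
      have h5 : min (w j) m ≤ min (v j) m + 1 := by omega
      have h6 : min (v j) m ≤ min (w j) m + 1 := by omega
      rw [abs_le]
      constructor
      · have : ((min (v j) m : ℕ) : ℝ) ≤ (min (w j) m : ℕ) + 1 := by exact_mod_cast h6
        linarith
      · have : ((min (w j) m : ℕ) : ℝ) ≤ (min (v j) m : ℕ) + 1 := by exact_mod_cast h5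
        linarith
    have h7 : a * f - a' * f' = (a - a') * f + a' * (f - f') := by ring
    have h8 : |f| ≤ 1 := by
      rw [abs_of_nonneg (fac_nonneg _ _)]
      exact fac_le_one _ _
    have h9 : |a'| ≤ 1 := by
      rw [abs_of_nonneg (P_nonneg _ _ _)]
      exact P_le_one _ _ _
    calc |a * f - a' * f'| ≤ |(a - a') * f| + |a' * (f - f')| := by rw [h7]; exact abs_add_le _ _
      _ ≤ |a - a'| * 1 + 1 * |f - f'| := by
          rw [abs_mul, abs_mul]
          exact add_le_add (mul_le_mul_of_nonneg_left h8 (abs_nonneg _))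
            (mul_le_mul_of_nonneg_right h9 (abs_nonneg _))
      _ ≤ j / m + 1 / m := by linarith
      _ = ((j + 1 : ℕ) : ℝ) / m := by push_cast; ring

/-- A nonempty subset of `ℝ / ℤ` with at most `K` points has a point preceded by a gap of length
at least `1 / (K + 1)`. -/
theorem gap (K : ℕ) (F : Finset ℝ) (hF : F.Nonempty) (hK : F.card ≤ K) :
    ∃ b : ℝ, (∃ s ∈ F, ∃ q : ℤ, b = s + q) ∧
      ∀ s ∈ F, ∀ q : ℤ, ¬ (b - 1 / ((K : ℝ) + 1) < s + q ∧ s + q < b) := by
  classical
  have hK1 : (0 : ℝ) < (K : ℝ) + 1 := by positivity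
  -- an empty arc
  obtain ⟨j, hj, hjF⟩ : ∃ j ∈ Finset.range (K + 1), j ∉ F.image
      (fun x => ⌊Int.fract x * ((K : ℝ) + 1)⌋₊) := by
    apply Finset.exists_mem_notMem_of_card_lt_card
    rw [Finset.card_range]
    exact lt_of_le_of_lt (Finset.card_image_le.trans hK) (Nat.lt_succ_self K)
  rw [Finset.mem_range] at hj
  set a : ℝ := j / ((K : ℝ) + 1) with ha
  have ha0 : 0 ≤ a := by positivity
  have ha1 : a + 1 / ((K : ℝ) + 1) ≤ 1 := by
    rw [ha, ← add_div, div_le_one hK1]
    have : (j : ℝ) ≤ K := by exact_mod_cast Nat.lt_succ_iff.1 hj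
    linarith
  obtain ⟨x0, hx0, hmin⟩ := Finset.exists_min_image F (fun x => Int.fract (x - a)) hF
  refine ⟨a + Int.fract (x0 - a), ⟨x0, hx0, -⌊x0 - a⌋, ?_⟩, ?_⟩
  · rw [Int.fract]; push_cast; ring
  have hlow : 1 / ((K : ℝ) + 1) ≤ Int.fract (x0 - a) := by
    by_contra hcon
    push Not at hcon
    apply hjF
    rw [Finset.mem_image]
    refine ⟨x0, hx0, ?_⟩
    have h1 : Int.fract x0 = a + Int.fract (x0 - a) := by
      rw [Int.fract_eq_iff]
      refine ⟨by have := Int.fract_nonneg (x0 - a); linarith, by linarith, ⌊x0 - a⌋, ?_⟩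
      rw [Int.fract]; ring
    rw [Nat.floor_eq_iff (by have := Int.fract_nonneg x0; positivity), h1]
    constructor
    · rw [ha, add_mul, div_mul_cancel₀ _ hK1.ne']
      have := Int.fract_nonneg (x0 - j / ((K : ℝ) + 1))
      nlinarith
    · rw [ha, add_mul, div_mul_cancel₀ _ hK1.ne']
      have h2 := (lt_div_iff₀ hK1).1 hcon
      rw [ha] at h2
      linarith
  rintro s hs q ⟨h1, h2⟩
  have h3 := hmin s hs
  have h4 : Int.fract (s - a) = s + q - a := by
    rw [Int.fract_eq_iff]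
    have := Int.fract_lt_one (x0 - a)
    refine ⟨by linarith, by linarith, -q, by push_cast; ring⟩
  linarith

/-- **Core theorem.** -/
theorem core (k m : ℕ) (hk : Even (k + 1)) (hm : 1 ≤ m) (ε : ℝ) (hε : 0 < ε)
    (hεL : 3 * ε < 1 / ((k : ℝ) + 2)) (hmε : ((k : ℝ) + 1) / m ≤ ε)
    (F : (ℕ → ℕ) → Finset ℝ) (hF : ∀ v, (F v).Nonempty) (hFc : ∀ v, (F v).card ≤ k + 1)
    (hadj : ∀ v w, Adj (k + 1) v w → ∀ x ∈ F v, ∃ y ∈ F w, ∃ q : ℤ, |x - y - q| ≤ ε)
    (hbd1 : ∀ v, Bd (k + 1) m v → ∀ x ∈ F v, ∃ j ≤ k + 1, ∃ q : ℤ, x = P m v j + q)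
    (hbd2 : ∀ v, Bd (k + 1) m v → ∀ j ≤ k + 1, ∃ x ∈ F v, ∃ q : ℤ, P m v j = x + q) :
    False := by
  classical
  set L : ℝ := 1 / ((k : ℝ) + 2) with hL
  have hgap : ∀ v, ∃ b : ℝ, (∃ s ∈ F v, ∃ q : ℤ, b = s + q) ∧
      ∀ s ∈ F v, ∀ q : ℤ, ¬ (b - L < s + q ∧ s + q < b) := by
    intro v
    have := gap (k + 1) (F v) (hF v) (hFc v)
    have e : ((k + 1 : ℕ) : ℝ) + 1 = (k : ℝ) + 2 := by push_cast; ring
    rw [e] at this
    exact this
  choose b hb1 hb2 using hgap
  -- the dichotomy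
  have half : ∀ v w, Adj (k + 1) v w → ∀ q : ℤ, b w + q - b v < L - ε → b w + q - b v ≤ ε := by
    intro v w hvw q h1
    by_contra h2
    push Not at h2
    obtain ⟨s, hs, p, hp⟩ := hb1 v
    obtain ⟨y, hy, r, hr⟩ := hadj v w hvw s hs
    rw [abs_le] at hr
    -- `y + r + p` is near `b v`
    apply hb2 w y hy (r + p - q)
    push_cast
    constructor <;> linarith
  have adj_symm : ∀ v w, Adj (k + 1) v w → Adj (k + 1) w v := fun v w h i hi =>
    ⟨(h i hi).2, (h i hi).1⟩
  have dich : ∀ v w, Adj (k + 1) v w → ∀ q : ℤ, |b v - b w - q| < L - ε →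
      |b v - b w - q| ≤ ε := by
    intro v w hvw q h
    rw [abs_lt] at h
    rw [abs_le]
    constructor
    · have := half v w hvw q (by linarith)
      linarith
    · have := half w v (adj_symm v w hvw) (-q) (by push_cast; linarith)
      push_cast at this
      linarith
  set E : (ℕ → ℕ) → (ℕ → ℕ) → Prop := fun v w => ∃ q : ℤ, |b v - b w - q| ≤ ε with hE
  have Esymm : ∀ v w, E v w → E w v := by
    rintro v w ⟨q, h⟩
    refine ⟨-q, ?_⟩
    rw [abs_le] at h ⊢
    push_cast
    constructor <;> linarith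
  have Etrans : ∀ u v w, Adj (k + 1) u w → E u v → E v w → E u w := by
    rintro u v w huw ⟨q, h⟩ ⟨q', h'⟩
    refine ⟨q + q', dich u w huw _ ?_⟩
    rw [abs_le] at h h'
    rw [abs_lt]
    push_cast
    constructor <;> linarith
  -- the extended numbers
  set Q : (ℕ → ℕ) → ℕ → ℝ := fun v j => if j ≤ k + 1 then P m v j else 0 with hQ
  have Q0 : ∀ v j, 0 ≤ Q v j := by
    intro v j
    simp only [hQ]
    split_ifs
    · exact P_nonneg _ _ _
    · exact le_rfl
  have Qle : ∀ v i j, i ≤ j → Q v j ≤ Q v i := by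
    intro v i j hij
    simp only [hQ]
    by_cases h : j ≤ k + 1
    · rw [if_pos h, if_pos (hij.trans h)]
      exact P_anti m v hij
    · rw [if_neg h]
      exact Q0 v i
  have hlab : ∀ v, Bd (k + 1) m v → ∃ j, j ≤ k + 1 ∧ (∃ q : ℤ, b v = P m v j + q) ∧
      L ≤ P m v j - Q v (j + 1) := by
    intro v hv
    -- a representative
    have h1 : ∃ i, i ≤ k + 1 ∧ 0 < P m v i ∧ ∃ q : ℤ, b v = P m v i + q := by
      obtain ⟨s, hs, q, hq⟩ := hb1 v
      obtain ⟨j, hj, q', hq'⟩ := hbd1 v hv s hs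
      by_cases h0 : P m v j = 0
      · refine ⟨0, Nat.zero_le _, by rw [P_zero]; norm_num, q + q' - 1, ?_⟩
        rw [P_zero, hq, hq', h0]
        push_cast
        ring
      · refine ⟨j, hj, lt_of_le_of_ne (P_nonneg _ _ _) (Ne.symm h0), q + q', ?_⟩
        rw [hq, hq']
        push_cast
        ring
    obtain ⟨i, hi, hpos, q, hq⟩ := h1
    -- the largest index with the same value
    set T := (Finset.range (k + 2)).filter (fun j => P m v j = P m v i) with hT
    have hTne : T.Nonempty := ⟨i, by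
      rw [hT, Finset.mem_filter, Finset.mem_range]
      exact ⟨by omega, rfl⟩⟩
    obtain ⟨j, hjT, hjmax⟩ := T.exists_max_image id hTne
    rw [hT, Finset.mem_filter, Finset.mem_range] at hjT
    obtain ⟨hj, hji⟩ := hjT
    refine ⟨j, by omega, ⟨q, by rw [hji]; exact hq⟩, ?_⟩
    have hlt : Q v (j + 1) < P m v j := by
      simp only [hQ]
      split_ifs with h
      · apply lt_of_le_of_ne (P_le_succ m v j)
        intro e
        have := hjmax (j + 1) (by rw [hT, Finset.mem_filter, Finset.mem_range]; exact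
          ⟨by omega, by rw [e, hji]⟩)
        simp only [id] at this
        omega
      · rw [hji]; exact hpos
    have hmem : ∃ x ∈ F v, ∃ q' : ℤ, Q v (j + 1) = x + q' := by
      simp only [hQ]
      split_ifs with h
      · exact hbd2 v hv (j + 1) h
      · obtain ⟨x, hx, q', hq'⟩ := hbd2 v hv 0 (Nat.zero_le _)
        refine ⟨x, hx, q' - 1, ?_⟩
        rw [P_zero] at hq'
        push_cast
        linarith
    obtain ⟨x, hx, q', hq'⟩ := hmem
    by_contra hcon
    push Not at hcon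
    apply hb2 v x hx (q' + q)
    rw [hq, ← hji]
    push_cast
    constructor <;> linarith
  have hmL : ((k : ℝ) + 1) / m < L := by linarith
  -- the labels on the boundary
  set lam : (ℕ → ℕ) → ℕ := fun v => if h : Bd (k + 1) m v then (hlab v h).choose else 0
    with hlam
  have lam_spec : ∀ v, Bd (k + 1) m v → lam v ≤ k + 1 ∧ (∃ q : ℤ, b v = P m v (lam v) + q) ∧
      L ≤ P m v (lam v) - Q v (lam v + 1) := by
    intro v hv
    have : lam v = (hlab v hv).choose := by simp only [hlam]; rw [dif_pos hv]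
    rw [this]
    exact (hlab v hv).choose_spec
  have hL0 : 0 < L := by positivity
  have Padj : ∀ v w, Adj (k + 1) v w → ∀ j ≤ k + 1, |P m v j - P m w j| ≤ ε := by
    intro v w hvw j hj
    refine (P_adj (k + 1) m hm v w hvw j hj).trans (le_trans ?_ hmε)
    apply div_le_div_of_nonneg_right _ (Nat.cast_nonneg m)
    exact_mod_cast hj
  -- different labels
  have diff : ∀ v w, Adj (k + 1) v w → Bd (k + 1) m v → Bd (k + 1) m w →
      lam v < lam w → ¬ E v w := by
    rintro v w hvw hv hw hlt ⟨q, hq⟩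
    obtain ⟨a1, ⟨q1, a2⟩, a3⟩ := lam_spec v hv
    obtain ⟨c1, ⟨q2, c2⟩, c3⟩ := lam_spec w hw
    have e1 : Q v (lam v + 1) = P m v (lam v + 1) := by
      simp only [hQ]; rw [if_pos (by omega)]
    have e2 : P m w (lam w) ≤ P m w (lam v + 1) := P_anti m w (by omega)
    have e3 := Padj v w hvw (lam v + 1) (by omega)
    have e4 := Q0 w (lam w + 1)
    have e5 := P_le_one m v (lam v)
    rw [e1] at a3
    rw [abs_le] at e3 hq
    rw [a2, c2] at hq
    -- the difference lies in `[L - ε, 1 - L]`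
    have d1 : L - ε ≤ P m v (lam v) - P m w (lam w) := by linarith
    have d2 : P m v (lam v) - P m w (lam w) ≤ 1 - L := by linarith
    have i1 : ((q2 + q - q1 : ℤ) : ℝ) < 1 := by push_cast; linarith
    have i2 : (0 : ℝ) < ((q2 + q - q1 : ℤ) : ℝ) := by push_cast; linarith
    have i1' : q2 + q - q1 < 1 := by exact_mod_cast i1
    have i2' : 0 < q2 + q - q1 := by exact_mod_cast i2
    omega
  refine comb k m hk E lam ?_ ?_ ?_ ?_ ?_
  · -- local classes
    intro x
    obtain ⟨ι, hι1, hι2⟩ : ∃ ι : ℝ → ℕ, (∀ y ∈ F x, ι y < k + 1) ∧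
        ∀ y ∈ F x, ∀ y' ∈ F x, ι y = ι y' → y = y' := by
      refine ⟨fun y => if h : y ∈ F x then ((F x).equivFin ⟨y, h⟩ : ℕ) else 0, ?_, ?_⟩
      · intro y hy
        simp only [dif_pos hy]
        exact lt_of_lt_of_le ((F x).equivFin ⟨y, hy⟩).2 (hFc x)
      · intro y hy y' hy' h
        simp only [dif_pos hy, dif_pos hy'] at h
        have := (F x).equivFin.injective (Fin.ext h)
        exact congrArg Subtype.val this
    have near : ∀ v, ∃ y ∈ F x, InCube (k + 1) x v → ∃ q : ℤ, |b v - y - q| ≤ ε := by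
      intro v
      by_cases hv : InCube (k + 1) x v
      · obtain ⟨s, hs, p, hp⟩ := hb1 v
        have hvx : Adj (k + 1) v x := by
          intro i hi
          have := hv.1 i hi
          omega
        obtain ⟨y, hy, r, hr⟩ := hadj v x hvx s hs
        refine ⟨y, hy, fun _ => ⟨r + p, ?_⟩⟩
        rw [abs_le] at hr ⊢
        push_cast
        constructor <;> linarith
      · obtain ⟨y, hy⟩ := hF x
        exact ⟨y, hy, fun h => absurd h hv⟩
    choose y hy1 hy2 using near
    have Erefl : ∀ v, E v v := fun v => ⟨0, by simp [hε.le]⟩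
    set A : (ℕ → ℕ) → Set ℕ := fun v => {n | ∃ w, InCube (k + 1) x w ∧ E v w ∧ ι (y w) = n}
      with hA
    refine ⟨fun v => sInf (A v), ?_⟩
    have hmem : ∀ v, InCube (k + 1) x v → sInf (A v) ∈ A v := by
      intro v hv
      apply Nat.sInf_mem
      exact ⟨ι (y v), v, hv, Erefl v, rfl⟩
    intro v hv
    constructor
    · obtain ⟨w, hw, hvw, e⟩ := hmem v hv
      show sInf (A v) < k + 1
      rw [← e]
      exact hι1 _ (hy1 w)
    · intro w hw
      constructor
      · intro hvw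
        have : A v = A w := by
          ext n
          constructor
          · rintro ⟨u, hu, h1, h2⟩
            exact ⟨u, hu, Etrans w v u (hw.adj hu) (Esymm _ _ hvw) h1, h2⟩
          · rintro ⟨u, hu, h1, h2⟩
            exact ⟨u, hu, Etrans v w u (hv.adj hu) hvw h1, h2⟩
        simp only [this]
      · intro e
        obtain ⟨u, hu, h1, h2⟩ := hmem v hv
        obtain ⟨u', hu', h1', h2'⟩ := hmem w hw
        simp only at e
        have e3 : y u = y u' := hι2 _ (hy1 u) _ (hy1 u') (by rw [h2, h2', e])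
        obtain ⟨q, hq⟩ := hy2 u hu
        obtain ⟨q', hq'⟩ := hy2 u' hu'
        rw [e3] at hq
        have e4 : E u u' := by
          refine ⟨q - q', dich u u' (hu.adj hu') _ ?_⟩
          rw [abs_le] at hq hq'
          rw [abs_lt]
          push_cast
          constructor <;> linarith
        exact Etrans v u w (hv.adj hw) h1
          (Etrans u u' w (hu.adj hw) e4 (Esymm _ _ h1'))
  · intro v w hvw hv hw
    constructor
    · intro h
      rcases lt_trichotomy (lam v) (lam w) with h1 | h1 | h1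
      · exact absurd h (diff v w hvw hv hw h1)
      · exact h1
      · exact absurd (Esymm _ _ h) (diff w v (adj_symm _ _ hvw) hw hv h1)
    · intro h
      obtain ⟨a1, ⟨q1, a2⟩, a3⟩ := lam_spec v hv
      obtain ⟨c1, ⟨q2, c2⟩, c3⟩ := lam_spec w hw
      refine ⟨q1 - q2, ?_⟩
      have := Padj v w hvw (lam v) a1
      rw [a2, c2, ← h]
      push_cast
      have e : P m v (lam v) + q1 - (P m w (lam v) + q2) - (q1 - q2 : ℝ) =
        P m v (lam v) - P m w (lam v) := by ring
      rw [e]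
      exact this
  · intro v hv
    exact (lam_spec v hv).1
  · intro v hv i hi hvi hcon
    obtain ⟨a1, ⟨q1, a2⟩, a3⟩ := lam_spec v hv
    rw [hcon] at a3
    have e1 : Q v (i + 1) = P m v (i + 1) := by
      simp only [hQ]; rw [if_pos (by omega)]
    rw [e1, P_of_zero m v i hvi] at a3
    linarith
  · intro v hv i hi hvi
    obtain ⟨a1, ⟨q1, a2⟩, a3⟩ := lam_spec v hv
    by_contra hcon
    push Not at hcon
    rw [P_of_top m hm v i (lam v) hvi hcon] at a3
    have := Q0 v (lam v + 1)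
    linarith

end Pool.Agent.Helper906Exp
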