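import Mathlib
import Pool.Agent.Helper906_Exp.Core

set_option autoImplicit false

/-!
There is no `C`-Lipschitz retraction of the space of subsets of the plane with at most `k + 2`
points onto the space of subsets with at most `k + 1` points if `k + 1` is even and
`k > 4 π C`.
-/

namespace Pool.Agent.Helper906Exp

open Real

/-- `exp (2 π i x)`. -/
noncomputable def ee (x : ℝ) : ℂ := Complex.exp ((2 * π * x : ℝ) * Complex.I)

/-- `arg z / (2 π)`. -/
noncomputable def turn (z : ℂ) : ℝ := Complex.arg z / (2 * π)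

theorem norm_ee (x : ℝ) : ‖ee x‖ = 1 := Complex.norm_exp_ofReal_mul_I _

theorem ee_add (x y : ℝ) : ee (x + y) = ee x * ee y := by
  rw [ee, ee, ee, ← Complex.exp_add]
  congr 1
  push_cast
  ring

theorem ee_zero : ee 0 = 1 := by simp [ee]

theorem ee_one : ee 1 = 1 := by
  have : ee 1 = Complex.exp (2 * π * Complex.I) := by
    rw [ee]; congr 1; push_cast; ring
  rw [this, Complex.exp_two_pi_mul_I]

theorem ee_lip (x y : ℝ) : ‖ee x - ee y‖ ≤ 2 * π * |x - y| := by
  have h1 : ee x - ee y = ee y * (ee (x - y) - 1) := by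
    rw [mul_sub, ← ee_add]
    ring_nf
  rw [h1, norm_mul, norm_ee, one_mul]
  have h2 := @Real.norm_exp_I_mul_ofReal_sub_one_le (2 * π * (x - y))
  have h3 : ee (x - y) = Complex.exp (Complex.I * ((2 * π * (x - y) : ℝ) : ℂ)) := by
    rw [ee]; congr 1; ring
  rw [h3]
  refine h2.trans ?_
  rw [Real.norm_eq_abs, abs_mul, abs_of_pos (by positivity : (0 : ℝ) < 2 * π)]

theorem turn_spec (z : ℂ) : z = ‖z‖ * ee (turn z) := by
  have h := Complex.norm_mul_exp_arg_mul_I z
  have e : (2 * π * turn z : ℝ) = Complex.arg z := by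
    rw [turn]; field_simp
  rw [ee, e]
  exact h.symm

theorem turn_eq (z : ℂ) (ρ x : ℝ) (hρ : 0 < ρ) (h : z = ρ * ee x) :
    ∃ q : ℤ, turn z = x + q := by
  have h1 : ‖z‖ = ρ := by
    rw [h, norm_mul, norm_ee, mul_one, Complex.norm_real, Real.norm_of_nonneg hρ.le]
  have h2 := turn_spec z
  rw [h1, h] at h2
  have h3 : ee x = ee (turn (ρ * ee x)) := by
    have hne : (ρ : ℂ) ≠ 0 := by exact_mod_cast hρ.ne'
    exact mul_left_cancel₀ hne h2
  rw [← h] at h3
  rw [ee, ee, Complex.exp_eq_exp_iff_exists_int] at h3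
  obtain ⟨n, hn⟩ := h3
  refine ⟨-n, ?_⟩
  have h4 : (2 * π * x : ℝ) = 2 * π * turn z + n * (2 * π) := by
    have : ((2 * π * x : ℝ) : ℂ) * Complex.I =
        ((2 * π * turn z + n * (2 * π) : ℝ) : ℂ) * Complex.I := by
      rw [hn]; push_cast; ring
    have := mul_right_cancel₀ Complex.I_ne_zero this
    exact_mod_cast this
  have hpi := Real.pi_pos
  have h5 : x = turn z + n := by
    have : 2 * π * x = 2 * π * (turn z + n) := by linarith
    exact mul_left_cancel₀ (by positivity) this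
  push_cast
  linarith

theorem turn_close (z z' : ℂ) (δ : ℝ) (hδ : δ < 1 / 4) (hz : 1 / 2 ≤ ‖z‖)
    (h : ‖z - z'‖ ≤ δ) : ∃ q : ℤ, |turn z - turn z' - q| ≤ δ := by
  have hpi := Real.pi_pos
  set u : ℂ := z' * ee (-turn z) with hu
  have h1 : z * ee (-turn z) = ‖z‖ := by
    conv_lhs => rw [turn_spec z]
    rw [mul_assoc, ← ee_add]
    have : turn (‖z‖ * ee (turn z)) = turn z := by rw [← turn_spec z]
    rw [this, add_neg_cancel, ee_zero, mul_one]
  have h2 : ‖(‖z‖ : ℂ) - u‖ ≤ δ := by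
    rw [← h1, hu, ← sub_mul, norm_mul, norm_ee, mul_one]
    exact h
  have h3 : |‖z‖ - u.re| ≤ δ := by
    have := Complex.abs_re_le_norm ((‖z‖ : ℂ) - u)
    simp only [Complex.sub_re, Complex.ofReal_re] at this
    exact this.trans h2
  have h4 : |u.im| ≤ δ := by
    have := Complex.abs_im_le_norm ((‖z‖ : ℂ) - u)
    simp only [Complex.sub_im, Complex.ofReal_im, zero_sub, abs_neg] at this
    exact this.trans h2
  have h5 : 1 / 4 ≤ u.re := by
    rw [abs_le] at h3
    linarith
  have h6 : 1 / 4 ≤ ‖u‖ := h5.trans ((le_abs_self _).trans (Complex.abs_re_le_norm u))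
  have h7 : |Real.sin (Complex.arg u)| ≤ 4 * δ := by
    rw [Complex.sin_arg, abs_div, abs_of_nonneg (norm_nonneg u), div_le_iff₀ (by linarith)]
    have hδ0 : 0 ≤ δ := (abs_nonneg _).trans h4
    nlinarith
  have h8 : |Complex.arg u| ≤ π / 2 := by
    rw [Complex.abs_arg_le_pi_div_two_iff]
    linarith
  have h9 := (Real.mul_abs_le_abs_sin h8).trans h7
  have h10 : |turn u| ≤ δ := by
    rw [turn, abs_div, abs_of_pos (by positivity : (0 : ℝ) < 2 * π),
      div_le_iff₀ (by positivity)]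
    have : 2 / π * |Complex.arg u| * π ≤ 4 * δ * π := mul_le_mul_of_nonneg_right h9 hpi.le
    have e : 2 / π * |Complex.arg u| * π = 2 * |Complex.arg u| := by field_simp
    rw [e] at this
    linarith
  have h11 : z' = ‖u‖ * ee (turn u + turn z) := by
    rw [ee_add, ← mul_assoc, ← turn_spec u, hu, mul_assoc, ← ee_add]
    simp [ee_zero]
  obtain ⟨q, hq⟩ := turn_eq z' ‖u‖ _ (by linarith) h11
  refine ⟨-q, ?_⟩
  rw [hq]
  push_cast
  have e : turn z - (turn u + turn z + q) - -q = -turn u := by ring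
  rw [e, abs_neg]
  exact h10

open Metric in
theorem hd_fin (s t : Finset ℂ) (hs : s.Nonempty) (ht : t.Nonempty) :
    hausdorffEDist (s : Set ℂ) (t : Set ℂ) ≠ ⊤ :=
  hausdorffEDist_ne_top_of_nonempty_of_bounded (by simpa using hs) (by simpa using ht)
    s.finite_toSet.isBounded t.finite_toSet.isBounded

/-- The subset of the circle given by a grid point. -/
noncomputable def A (k m : ℕ) (v : ℕ → ℕ) : Finset ℂ :=
  (Finset.range (k + 2)).image (fun j => ee (P m v j))

theorem A_card (k m : ℕ) (v : ℕ → ℕ) : (A k m v).card ≤ k + 2 := by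
  refine Finset.card_image_le.trans ?_
  simp

theorem A_nonempty (k m : ℕ) (v : ℕ → ℕ) : (A k m v).Nonempty := by
  refine Finset.Nonempty.image ?_ _
  exact ⟨0, by simp⟩

theorem A_bd (k m : ℕ) (hm : 1 ≤ m) (v : ℕ → ℕ) (hv : Bd (k + 1) m v) :
    (A k m v).card ≤ k + 1 := by
  classical
  obtain ⟨i, hi, h⟩ := hv
  -- a superfluous index
  obtain ⟨a, ha, b, hb, hab, e⟩ : ∃ a, a < k + 2 ∧ ∃ b, b < k + 2 ∧ a ≠ b ∧
      ee (P m v a) = ee (P m v b) := by
    rcases h with h | h
    · exact ⟨i + 1, by omega, i, by omega, by omega, by rw [P_of_zero m v i h]⟩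
    · refine ⟨k + 1, by omega, 0, by omega, by omega, ?_⟩
      rw [P_of_top m hm v i (k + 1) h hi, P_zero, ee_zero, ee_one]
  have : A k m v = ((Finset.range (k + 2)).erase a).image (fun j => ee (P m v j)) := by
    ext z
    simp only [A, Finset.mem_image, Finset.mem_range, Finset.mem_erase]
    constructor
    · rintro ⟨j, hj, rfl⟩
      by_cases hja : j = a
      · exact ⟨b, ⟨hab.symm, hb⟩, by rw [hja]; exact e.symm⟩
      · exact ⟨j, ⟨hja, hj⟩, rfl⟩
    · rintro ⟨j, ⟨-, hj⟩, rfl⟩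
      exact ⟨j, hj, rfl⟩
  rw [this]
  refine Finset.card_image_le.trans ?_
  rw [Finset.card_erase_of_mem (Finset.mem_range.2 ha), Finset.card_range]
  omega

theorem A_adj (k m : ℕ) (hm : 1 ≤ m) (v w : ℕ → ℕ) (h : Adj (k + 1) v w) :
    Metric.hausdorffDist (A k m v : Set ℂ) (A k m w : Set ℂ) ≤ 2 * π * ((k + 1) / m) := by
  have hpi := Real.pi_pos
  have key : ∀ v w, Adj (k + 1) v w → ∀ x ∈ (A k m v : Set ℂ), ∃ y ∈ (A k m w : Set ℂ),
      dist x y ≤ 2 * π * ((k + 1) / m) := by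
    intro v w h x hx
    simp only [A, Finset.coe_image, Set.mem_image, Finset.mem_coe, Finset.mem_range] at hx
    obtain ⟨j, hj, rfl⟩ := hx
    refine ⟨ee (P m w j), ?_, ?_⟩
    · simp only [A, Finset.coe_image, Set.mem_image, Finset.mem_coe, Finset.mem_range]
      exact ⟨j, hj, rfl⟩
    · rw [dist_eq_norm]
      refine (ee_lip _ _).trans ?_
      have h1 := P_adj (k + 1) m hm v w h j (by omega)
      apply mul_le_mul_of_nonneg_left _ (by positivity)
      refine h1.trans ?_
      apply div_le_div_of_nonneg_right _ (Nat.cast_nonneg m)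
      have : (j : ℝ) ≤ (k + 1 : ℕ) := by exact_mod_cast (by omega : j ≤ k + 1)
      push_cast at this
      exact this
  apply Metric.hausdorffDist_le_of_mem_dist (by positivity) (key v w h)
  intro x hx
  obtain ⟨y, hy, hd⟩ := key w v (fun i hi => ⟨(h i hi).2, (h i hi).1⟩) x hx
  exact ⟨y, hy, hd⟩

/-- A set with one point less nearby. -/
theorem A_near (k m : ℕ) (hk : 1 ≤ k) (v : ℕ → ℕ) :
    ∃ A' : Finset ℂ, A'.Nonempty ∧ A'.card ≤ k + 1 ∧ (∀ z ∈ A', ‖z‖ = 1) ∧
      Metric.hausdorffDist (A k m v : Set ℂ) (A' : Set ℂ) ≤ 2 * π / k := by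
  classical
  have hpi := Real.pi_pos
  have hk0 : (0 : ℝ) < k := by exact_mod_cast hk
  obtain ⟨a, ha, b, hb, hab, e⟩ : ∃ a ∈ Finset.range (k + 2), ∃ b ∈ Finset.range (k + 2),
      a ≠ b ∧ ⌊P m v a * k⌋₊ = ⌊P m v b * k⌋₊ := by
    apply Finset.exists_ne_map_eq_of_card_lt_of_maps_to (t := Finset.range (k + 1))
    · simp
    · intro j _
      simp only [Finset.coe_range, Set.mem_Iio]
      have h1 : P m v j * k ≤ k := mul_le_of_le_one_left hk0.le (P_le_one m v j)
      have h2 : ⌊P m v j * k⌋₊ ≤ k := Nat.floor_le_of_le h1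
      omega
  have hclose : |P m v a - P m v b| ≤ 1 / k := by
    have h1 := Nat.floor_le (mul_nonneg (P_nonneg m v a) hk0.le)
    have h2 := Nat.lt_floor_add_one (P m v a * k)
    have h3 := Nat.floor_le (mul_nonneg (P_nonneg m v b) hk0.le)
    have h4 := Nat.lt_floor_add_one (P m v b * k)
    rw [e] at h1 h2
    rw [le_div_iff₀ hk0, ← abs_of_pos hk0, ← abs_mul, abs_le]
    constructor <;> nlinarith
  refine ⟨((Finset.range (k + 2)).erase a).image (fun j => ee (P m v j)), ?_, ?_, ?_, ?_⟩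
  · exact ⟨ee (P m v b), Finset.mem_image.2 ⟨b, Finset.mem_erase.2 ⟨hab.symm, hb⟩, rfl⟩⟩
  · refine Finset.card_image_le.trans ?_
    rw [Finset.card_erase_of_mem ha, Finset.card_range]
    omega
  · intro z hz
    obtain ⟨j, _, rfl⟩ := Finset.mem_image.1 hz
    exact norm_ee _
  · apply Metric.hausdorffDist_le_of_mem_dist (by positivity)
    · intro x hx
      simp only [A, Finset.coe_image, Set.mem_image, Finset.mem_coe] at hx
      obtain ⟨j, hj, rfl⟩ := hx
      by_cases hja : j = a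
      · refine ⟨ee (P m v b), ?_, ?_⟩
        · simp only [Finset.coe_image, Set.mem_image, Finset.mem_coe]
          exact ⟨b, Finset.mem_erase.2 ⟨hab.symm, hb⟩, rfl⟩
        · rw [dist_eq_norm, hja]
          refine (ee_lip _ _).trans ?_
          calc 2 * π * |P m v a - P m v b| ≤ 2 * π * (1 / k) :=
                mul_le_mul_of_nonneg_left hclose (by positivity)
            _ = 2 * π / k := by ring
      · refine ⟨ee (P m v j), ?_, ?_⟩
        · simp only [Finset.coe_image, Set.mem_image, Finset.mem_coe]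
          exact ⟨j, Finset.mem_erase.2 ⟨hja, hj⟩, rfl⟩
        · rw [dist_self]; positivity
    · intro x hx
      simp only [Finset.coe_image, Set.mem_image, Finset.mem_coe, Finset.mem_erase] at hx
      obtain ⟨j, ⟨_, hj⟩, rfl⟩ := hx
      refine ⟨ee (P m v j), ?_, ?_⟩
      · simp only [A, Finset.coe_image, Set.mem_image, Finset.mem_coe]
        exact ⟨j, hj, rfl⟩
      · rw [dist_self]; positivity

/-- **Main theorem.** -/
theorem main (k : ℕ) (hk : Even (k + 1)) (C : ℝ) (hC0 : 0 < C) (hC : 4 * π * C < k)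
    (r : Finset ℂ → Finset ℂ)
    (h1 : ∀ s : Finset ℂ, s.Nonempty → s.card ≤ k + 2 → (r s).Nonempty ∧ (r s).card ≤ k + 1)
    (h2 : ∀ s : Finset ℂ, s.Nonempty → s.card ≤ k + 1 → r s = s)
    (h3 : ∀ s t : Finset ℂ, s.Nonempty → s.card ≤ k + 2 → t.Nonempty → t.card ≤ k + 2 →
      Metric.hausdorffDist (r s : Set ℂ) (r t : Set ℂ) ≤
        C * Metric.hausdorffDist (s : Set ℂ) (t : Set ℂ)) : False := by
  classical
  have hpi := Real.pi_pos
  have hk0 : (0 : ℝ) < k := lt_trans (by positivity) hC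
  have hk1 : 1 ≤ k := by
    have : (0 : ℝ) < (k : ℝ) := hk0
    exact_mod_cast this
  set ε : ℝ := 1 / (4 * ((k : ℝ) + 2)) with hε
  have hε0 : 0 < ε := by positivity
  have hε3 : 3 * ε < 1 / ((k : ℝ) + 2) := by
    have e : ε = (1 / ((k : ℝ) + 2)) / 4 := by rw [hε]; field_simp
    have : 0 < 1 / ((k : ℝ) + 2) := by positivity
    rw [e]
    linarith
  have hε4 : ε < 1 / 4 := by
    rw [hε]
    apply one_div_lt_one_div_of_lt (by norm_num)
    linarith
  obtain ⟨m, hm⟩ := exists_nat_gt ((C * (2 * π) + 1) * ((k : ℝ) + 1) / ε)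
  have hm0 : (0 : ℝ) < m := lt_of_le_of_lt (by positivity) hm
  have hm1 : 1 ≤ m := by exact_mod_cast hm0
  rw [div_lt_iff₀ hε0] at hm
  have hmε : ((k : ℝ) + 1) / m ≤ ε := by
    rw [div_le_iff₀ hm0]
    have : 0 ≤ C * (2 * π) * ((k : ℝ) + 1) := by positivity
    nlinarith
  have hmε' : C * (2 * π * (((k : ℝ) + 1) / m)) < ε := by
    have e : C * (2 * π * (((k : ℝ) + 1) / m)) = (C * (2 * π) * ((k : ℝ) + 1)) / m := by
      field_simp
    rw [e, div_lt_iff₀ hm0]
    nlinarith
  -- the values avoid a neighbourhood of the centre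
  have far : ∀ v, ∀ z ∈ r (A k m v), 1 / 2 ≤ ‖z‖ := by
    intro v z hz
    obtain ⟨A', hA1, hA2, hA3, hA4⟩ := A_near k m hk1 v
    have e1 := h3 (A k m v) A' (A_nonempty k m v) (A_card k m v) hA1 (by omega)
    rw [h2 A' hA1 hA2] at e1
    have e2 : Metric.hausdorffDist (r (A k m v) : Set ℂ) (A' : Set ℂ) < 1 / 2 := by
      refine lt_of_le_of_lt (e1.trans (mul_le_mul_of_nonneg_left hA4 hC0.le)) ?_
      have : C * (2 * π / k) = (2 * π * C) / k := by ring
      rw [this, div_lt_iff₀ hk0]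
      linarith
    obtain ⟨y, hy, hd⟩ := Metric.exists_dist_lt_of_hausdorffDist_lt (by simpa using hz) e2
      (hd_fin _ _ (h1 _ (A_nonempty k m v) (A_card k m v)).1 hA1)
    have e3 := hA3 y (by simpa using hy)
    rw [dist_eq_norm] at hd
    have e4 : ‖y‖ ≤ ‖z‖ + ‖z - y‖ := by
      have := norm_sub_le z (z - y)
      simpa using this
    linarith
  refine core k m hk hm1 ε hε0 hε3 hmε (fun v => (r (A k m v)).image turn) ?_ ?_ ?_ ?_ ?_
  · intro v
    exact (h1 _ (A_nonempty k m v) (A_card k m v)).1.image _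
  · intro v
    exact Finset.card_image_le.trans (h1 _ (A_nonempty k m v) (A_card k m v)).2
  · intro v w hvw x hx
    obtain ⟨z, hz, rfl⟩ := Finset.mem_image.1 hx
    have e1 := h3 (A k m v) (A k m w) (A_nonempty k m v) (A_card k m v) (A_nonempty k m w)
      (A_card k m w)
    have e2 := lt_of_le_of_lt (e1.trans (mul_le_mul_of_nonneg_left (A_adj k m hm1 v w hvw)
      hC0.le)) hmε'
    obtain ⟨z', hz', hd⟩ := Metric.exists_dist_lt_of_hausdorffDist_lt (by simpa using hz) e2
      (hd_fin _ _ (h1 _ (A_nonempty k m v) (A_card k m v)).1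
        (h1 _ (A_nonempty k m w) (A_card k m w)).1)
    rw [dist_eq_norm] at hd
    refine ⟨turn z', Finset.mem_image.2 ⟨z', by simpa using hz', rfl⟩, ?_⟩
    exact turn_close z z' ε hε4 (far v z hz) hd.le
  · intro v hv x hx
    rw [h2 _ (A_nonempty k m v) (A_bd k m hm1 v hv)] at hx
    obtain ⟨z, hz, rfl⟩ := Finset.mem_image.1 hx
    obtain ⟨j, hj, rfl⟩ := Finset.mem_image.1 hz
    rw [Finset.mem_range] at hj
    exact ⟨j, by omega, turn_eq _ 1 _ one_pos (by simp)⟩
  · intro v hv j hj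
    refine ⟨turn (ee (P m v j)), ?_, ?_⟩
    · rw [h2 _ (A_nonempty k m v) (A_bd k m hm1 v hv)]
      exact Finset.mem_image.2 ⟨_, Finset.mem_image.2 ⟨j, by rw [Finset.mem_range]; omega, rfl⟩,
        rfl⟩
    · obtain ⟨q, hq⟩ := turn_eq (ee (P m v j)) 1 (P m v j) one_pos (by simp)
      refine ⟨-q, ?_⟩
      rw [hq]
      push_cast
      ring

end Pool.Agent.Helper906Exp
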